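import Pool.Agent.KS6_51.INV.Mat
import Pool.Agent.KS6_51.INV.Fld
import Pool.Agent.KS6_51.INV.Arr
import Pool.Graph.R_pool_sql_team_seeded_2aa45f1a.Q20.RG.CSPrime
import Pool.Graph.R_pool_sql_team_seeded_2aa45f1a.Q46.SL.Tools

set_option autoImplicit false

/-! # Invariant sets of vectors over a prime field, all coordinates with a property given by a criterion -/

namespace Pool.Agent.KS6_51.INVC

open Finset Filter Matrix Module
open Pool.Agent.Q20.RG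
open Pool.Agent.Q46.SL (CS)
open Pool.Agent.KS6_51.INV

/-- every nonzero functional is among `T` functionals with the same modulus of the exponential sum -/
def Spread {p : ℕ} [Fact p.Prime] {J : Type} [Fintype J] [DecidableEq J] (Ω : Finset (J → ZMod p)) (T : ℝ) : Prop :=
  ∀ h : J → ZMod p, h ≠ 0 → ∃ H : Finset (J → ZMod p), (∀ g ∈ H, ‖S Ω g‖ = ‖S Ω h‖) ∧ T ≤ H.card

/-- the number of the vectors in `Ω` all of whose coordinates are in the given intervals and have the property `P` -/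
noncomputable def hits {p : ℕ} {J : Type} (P : ℤ → Prop) (Ω : Finset (J → ZMod p)) (A N : J → ℕ) : ℕ :=
  (goodP P Ω (fun v j => (v j).val) A N).card

/-- **invariant sets, criterion version** -/
theorem genC {Θ : Type} (Q : Θ → ℝ → ℝ → ℤ → Prop) (lam : ℝ → ℝ) (J : Type) [Fintype J] [DecidableEq J]
    (hQ : CS Q lam (Fintype.card J)) (ε : ℝ) (hε : 0 < ε) (hε1 : ε ≤ 1) :
    ∃ κ : ℝ, 0 < κ ∧ ∃ cc : ℝ, 0 < cc ∧ ∃ p₀ : ℕ, ∀ p : ℕ, p₀ ≤ p → ∀ [Fact p.Prime],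
    ∀ θ : Θ, ∀ (Ω : Finset (J → ZMod p)) (T : ℝ), Spread Ω T →
    ∀ A N : J → ℕ, (∀ j, A j + N j ≤ p) → (∀ j, (p : ℝ) ^ ε ≤ N j) →
      (p : ℝ) ^ (3 * (Fintype.card J : ℝ) + ε) ≤ (∏ j, (N j : ℝ)) ^ 2 * Ω.card * T →
      cc * ((∏ j, (N j : ℝ)) * Ω.card / (p : ℝ) ^ Fintype.card J) * lam p ≤ hits (Q θ κ p) Ω A N := by
  classical
  obtain ⟨κ, hκ, cc, hcc, p₀, h⟩ := primeC Q lam J hQ (ε / 2) (by positivity) (by linarith)
  refine ⟨κ, hκ, cc, hcc, max p₀ 2, ?_⟩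
  intro p hp0 _ θ Ω T hH A N hAN hN hW
  have hpp : p.Prime := Fact.out
  have hp : (0 : ℝ) < p := by exact_mod_cast hpp.pos
  have hp1 : (1 : ℝ) ≤ p := by exact_mod_cast hpp.one_lt.le
  have hmono : ∀ x y : ℝ, x ≤ y → (p : ℝ) ^ x ≤ (p : ℝ) ^ y := fun x y h =>
    Real.rpow_le_rpow_of_exponent_le hp1 h
  set r : ℝ := (Fintype.card J : ℝ) with hr
  have hpr : (p : ℝ) ^ Fintype.card J = (p : ℝ) ^ r := by rw [hr, Real.rpow_natCast]
  have hΩ0 : (0 : ℝ) ≤ Ω.card := Nat.cast_nonneg _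
  have hPN : 0 ≤ ∏ j, (N j : ℝ) := by positivity
  have hT : 0 < T := by
    by_contra hcon
    have h1 : (∏ j, (N j : ℝ)) ^ 2 * Ω.card * T ≤ 0 :=
      mul_nonpos_of_nonneg_of_nonpos (by positivity) (not_lt.1 hcon)
    have h2 : (0 : ℝ) < (p : ℝ) ^ (3 * r + ε) := by positivity
    linarith
  refine (h p ((le_max_left _ _).trans hp0)).2 θ (J → ZMod p) Ω (fun v => v)
    (Real.sqrt ((p : ℝ) ^ Fintype.card J * Ω.card / T)) Ω.card (Real.sqrt_nonneg _) le_rfl (by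
      intro h0 hh0
      obtain ⟨H, hH1, hH2⟩ := hH h0 hh0
      exact bound Ω h0 H hH1 T hT hH2) A N hAN (fun j => (hmono _ _ (by linarith)).trans (hN j)) (by
      apply le_of_sq_le_sq _ (by positivity)
      rw [mul_pow, mul_pow, Real.sq_sqrt (by positivity), hpr, div_mul_eq_mul_div, div_mul_eq_mul_div,
        div_le_iff₀ hT]
      have e1 : (p : ℝ) ^ r * Ω.card * ((p : ℝ) ^ (ε / 2)) ^ 2 * ((p : ℝ) ^ r) ^ 2 =
          (p : ℝ) ^ (3 * r + ε) * Ω.card := by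
        have : (p : ℝ) ^ (3 * r + ε) = (p : ℝ) ^ r * ((p : ℝ) ^ (ε / 2)) ^ 2 * ((p : ℝ) ^ r) ^ 2 := by
          rw [← Real.rpow_natCast ((p : ℝ) ^ (ε / 2)), ← Real.rpow_natCast ((p : ℝ) ^ r), ← Real.rpow_mul hp.le,
            ← Real.rpow_mul hp.le, ← Real.rpow_add hp, ← Real.rpow_add hp]
          congr 1
          push_cast
          ring
        rw [this]
        ring
      rw [e1]
      calc (p : ℝ) ^ (3 * r + ε) * Ω.card ≤ (∏ j, (N j : ℝ)) ^ 2 * Ω.card * T * Ω.card :=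
            mul_le_mul_of_nonneg_right hW hΩ0
        _ = _ := by ring)

/-- affine maps -/
lemma spread_affine {p r : ℕ} [Fact p.Prime] (Γ : Set (Matrix (Fin r) (Fin r) (ZMod p) × (Fin r → ZMod p))) (T : ℝ)
    (hT : ∀ H : Finset (Fin r → ZMod p), (∃ h ∈ H, h ≠ 0) → (∀ γ ∈ Γ, ∀ h ∈ H, h ᵥ* γ.1 ∈ H) → T ≤ H.card)
    (Ω : Finset (Fin r → ZMod p)) (hΩ : ∀ γ ∈ Γ, Set.BijOn (fun v => γ.1 *ᵥ v + γ.2) Ω Ω) : Spread Ω T := by
  classical
  intro h0 hh0
  refine ⟨univ.filter (fun g => ‖S Ω g‖ = ‖S Ω h0‖), fun g hg => (mem_filter.1 hg).2, ?_⟩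
  apply hT
  · exact ⟨h0, by simp, hh0⟩
  · intro γ hγ g hg
    rw [mem_filter] at hg ⊢
    refine ⟨mem_univ _, ?_⟩
    rw [← hg.2]
    symm
    refine inv_norm Ω (fun v => γ.1 *ᵥ v + γ.2) (hΩ γ hγ).mapsTo (hΩ γ hγ).injOn g (g ᵥ* γ.1)
      (g ⬝ᵥ γ.2) fun v => ?_
    rw [dotProduct_add, dotProduct_mulVec]

/-- finite fields -/
lemma spread_field {p r : ℕ} [Fact p.Prime] {F : Type} [Field F] [Algebra (ZMod p) F]
    (B : Basis (Fin r) (ZMod p) F) (U : Subgroup Fˣ) (Ω : Finset (Fin r → ZMod p))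
    (hU : ∀ u ∈ U, ∀ v ∈ Ω, B.equivFun ((u : F) * B.equivFun.symm v) ∈ Ω) : Spread Ω (Nat.card U) := by
  classical
  have hfin : Finite F := by
    have : Finite (Fin r → ZMod p) := inferInstance
    exact Finite.of_equiv _ B.equivFun.symm.toEquiv
  have hfu : Finite Fˣ := inferInstance
  letI : Fintype U := Fintype.ofFinite U
  intro g hg
  refine ⟨univ.image (fun u : U => fun j => g ⬝ᵥ B.equivFun (((u : Fˣ) : F) * B j)), ?_, ?_⟩
  · intro g' hg'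
    obtain ⟨u, -, rfl⟩ := mem_image.1 hg'
    symm
    refine inv_norm Ω (fun v => B.equivFun (((u : Fˣ) : F) * B.equivFun.symm v)) ?_ ?_ g _ 0 fun v => ?_
    · intro v hv
      exact hU u u.2 v hv
    · intro v _ w _ hvw
      have h1 := B.equivFun.injective hvw
      have h2 := mul_left_cancel₀ (Units.ne_zero (u : Fˣ)) h1
      exact B.equivFun.symm.injective h2
    · rw [add_zero, expand B g, LinearEquiv.apply_symm_apply]
  · rw [card_image_of_injective, card_univ, Nat.card_eq_fintype_card]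
    intro u u' huu
    apply Subtype.ext
    apply Units.ext
    exact func_inj B g hg _ _ huu

/-- arrays -/
lemma spread_arrays {p k : ℕ} [Fact p.Prime] {n : Fin k → ℕ} (hn : ∀ j, 1 ≤ n j) {D : Finset (Fin k)}
    (hD : ∃ j ∈ D, 2 ≤ n j) {Ω : Finset ((∀ j, Fin (n j)) → ZMod p)} (hΩ : Closed D Ω) :
    Spread Ω ((p : ℝ) ^ (∑ j ∈ D, ((n j : ℝ) - 1) + 1) / 2) := by
  intro h0 hh0
  obtain ⟨H, hH1, hH2⟩ := many hΩ h0 hh0 hD
  refine ⟨H, hH1, ?_⟩
  have hpp : p.Prime := Fact.out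
  have hp : (0 : ℝ) < p := by exact_mod_cast hpp.pos
  have hp2 : (2 : ℝ) ≤ p := by exact_mod_cast hpp.two_le
  set E : ℕ := ∑ j ∈ D, (n j - 1) with hE
  have hEr : (E : ℝ) = ∑ j ∈ D, ((n j : ℝ) - 1) := by
    rw [hE]
    push_cast
    refine sum_congr rfl fun j _ => ?_
    rw [Nat.cast_sub (hn j)]
    push_cast
    ring
  rw [← hEr, Real.rpow_add_one hp.ne', Real.rpow_natCast]
  have h1 : (((p - 1) * p ^ E : ℕ) : ℝ) ≤ H.card := by exact_mod_cast hH2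
  refine le_trans ?_ h1
  rw [Nat.cast_mul, Nat.cast_sub hpp.one_lt.le]
  push_cast
  have : (0 : ℝ) < (p : ℝ) ^ E := by positivity
  nlinarith

end Pool.Agent.KS6_51.INVC
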