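import Pool.Agent.KS6_51.INVC.Crit

set_option autoImplicit false

/-! # Invariant sets of vectors over a prime field: the three families -/

namespace Pool.Agent.KS6_51.INVC

open Finset Filter Matrix Module
open Pool.Agent.Q20.RG
open Pool.Agent.Q46.SL (CS)
open Pool.Agent.KS6_51.INV

/-- the number of the `v` in `Ω` all of whose coordinates `c v j` have their least residue in `[A j, A j + N j)` and
with the property `P` -/
noncomputable def Count {V J : Type} {p : ℕ} (Ω : Finset V) (c : V → J → ZMod p) (A N : J → ℕ) (P : ℕ → Prop) : ℕ :=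
  {v : V | v ∈ Ω ∧ ∀ j, (A j ≤ (c v j).val ∧ (c v j).val < A j + N j) ∧ P (c v j).val}.ncard

lemma hits_le {V J : Type} {p : ℕ} {P : ℤ → Prop} {P' : ℕ → Prop} (Ω : Finset V) (c : V → J → ZMod p)
    (hc : Set.InjOn c Ω) [DecidableEq (J → ZMod p)] {A N : J → ℕ} {t : ℝ}
    (h : t ≤ hits P (Ω.image c) A N)
    (hP : ∀ v ∈ Ω, ∀ j, (c v j).val < A j + N j → P ((c v j).val : ℤ) → P' (c v j).val) :
    t ≤ Count Ω c A N P' := by
  classical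
  refine h.trans ?_
  rw [Nat.cast_le]
  unfold hits Count
  have h1 : (goodP P (Ω.image c) (fun v j => (v j).val) A N) ⊆
      ((Ω.filter (fun v => ∀ j, (A j ≤ (c v j).val ∧ (c v j).val < A j + N j) ∧ P' (c v j).val)).image c) := by
    intro w hw
    rw [mem_goodP, mem_image] at hw
    obtain ⟨⟨v, hv, rfl⟩, h2⟩ := hw
    rw [mem_image]
    refine ⟨v, mem_filter.2 ⟨hv, fun j => ?_⟩, rfl⟩
    obtain ⟨h3, h4⟩ := h2 j
    rw [mem_Ico] at h3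
    exact ⟨h3, hP v hv j h3.2 h4⟩
  refine (card_le_card h1).trans (card_image_le.trans ?_)
  rw [← Set.ncard_coe_finset]
  apply Set.ncard_le_ncard _ (Set.Finite.subset (finite_toSet Ω) fun v hv => hv.1)
  intro v hv
  rw [mem_coe, mem_filter] at hv
  exact hv

variable {Θ : Type} (Q : Θ → ℝ → ℝ → ℤ → Prop) (lam : ℕ → ℝ → ℝ) (hQ : ∀ r, CS Q (lam r) r)

include hQ

/-- affine maps -/
theorem famA (r : ℕ) (ε : ℝ) (hε : 0 < ε) (hε1 : ε ≤ 1) :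
    ∃ κ : ℝ, 0 < κ ∧ ∃ cc : ℝ, 0 < cc ∧ ∃ p₀ : ℕ, ∀ p : ℕ, p₀ ≤ p → ∀ [Fact p.Prime],
    ∀ (θ : Θ) (P' : ℕ → Prop), (∀ x : ℕ, x < p → Q θ κ p x → P' x) →
    ∀ (Γ : Set (Matrix (Fin r) (Fin r) (ZMod p) × (Fin r → ZMod p))) (T : ℝ),
    (∀ H : Finset (Fin r → ZMod p), (∃ h ∈ H, h ≠ 0) → (∀ γ ∈ Γ, ∀ h ∈ H, h ᵥ* γ.1 ∈ H) → T ≤ H.card) →
    ∀ Ω : Finset (Fin r → ZMod p), (∀ γ ∈ Γ, Set.BijOn (fun v => γ.1 *ᵥ v + γ.2) Ω Ω) →
    ∀ A N : Fin r → ℕ, (∀ j, A j + N j ≤ p ∧ (p : ℝ) ^ ε ≤ N j) →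
      (p : ℝ) ^ (3 * (r : ℝ) + ε) ≤ (∏ j, (N j : ℝ)) ^ 2 * Ω.card * T →
      cc * ((∏ j, (N j : ℝ)) * Ω.card / (p : ℝ) ^ r) * lam r p ≤ Count Ω (fun v => v) A N P' := by
  classical
  obtain ⟨κ, hκ, cc, hcc, p₀, h⟩ := genC Q (lam r) (Fin r) (by rw [Fintype.card_fin]; exact hQ r) ε hε hε1
  refine ⟨κ, hκ, cc, hcc, p₀, ?_⟩
  intro p hp0 _ θ P' hP' Γ T hT Ω hΩ A N hAN hW
  have key := h p hp0 θ Ω T (spread_affine Γ T hT Ω hΩ) A N (fun j => (hAN j).1) (fun j => (hAN j).2)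
    (by rw [Fintype.card_fin]; exact hW)
  rw [Fintype.card_fin] at key
  refine hits_le Ω (fun v => v) (Set.injOn_id _) (P := Q θ κ p) (by rw [image_id']; exact key) ?_
  intro v _ j _ hv
  exact hP' _ (ZMod.val_lt _) hv

/-- finite fields -/
theorem famF (r : ℕ) (ε : ℝ) (hε : 0 < ε) (hε1 : ε ≤ 1) :
    ∃ κ : ℝ, 0 < κ ∧ ∃ cc : ℝ, 0 < cc ∧ ∃ p₀ : ℕ, ∀ p : ℕ, p₀ ≤ p → ∀ [Fact p.Prime],
    ∀ (θ : Θ) (P' : ℕ → Prop), (∀ x : ℕ, x < p → Q θ κ p x → P' x) →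
    ∀ (F : Type) [Field F] [Algebra (ZMod p) F] (B : Basis (Fin r) (ZMod p) F) (U : Subgroup Fˣ) (Ω : Finset F),
    (∀ u ∈ U, ∀ y ∈ Ω, (u : F) * y ∈ Ω) →
    ∀ A N : Fin r → ℕ, (∀ j, A j + N j ≤ p ∧ (p : ℝ) ^ ε ≤ N j) →
      (p : ℝ) ^ (3 * (r : ℝ) + ε) ≤ (∏ j, (N j : ℝ)) ^ 2 * Ω.card * Nat.card U →
      cc * ((∏ j, (N j : ℝ)) * Ω.card / (p : ℝ) ^ r) * lam r p ≤
        Count Ω (fun y j => B.repr y j) A N P' := by
  classical
  obtain ⟨κ, hκ, cc, hcc, p₀, h⟩ := genC Q (lam r) (Fin r) (by rw [Fintype.card_fin]; exact hQ r) ε hε hε1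
  refine ⟨κ, hκ, cc, hcc, p₀, ?_⟩
  intro p hp0 _ θ P' hP' F _ _ B U Ω hU A N hAN hW
  have hinj : Function.Injective (fun y j => B.repr y j : F → Fin r → ZMod p) := by
    intro y z hyz
    apply B.equivFun.injective
    funext j
    rw [Basis.equivFun_apply, Basis.equivFun_apply]
    exact congrFun hyz j
  have hcard : (Ω.image (fun y j => B.repr y j : F → Fin r → ZMod p)).card = Ω.card :=
    card_image_of_injective _ hinj
  have key := h p hp0 θ (Ω.image (fun y j => B.repr y j)) (Nat.card U) (spread_field B U _ (by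
      intro u hu v hv
      rw [mem_image] at hv ⊢
      obtain ⟨y, hy, rfl⟩ := hv
      refine ⟨(u : F) * y, hU u hu y hy, ?_⟩
      have h1 : B.equivFun.symm (fun j => B.repr y j) = y := by
        rw [LinearEquiv.symm_apply_eq]
        funext j
        rw [Basis.equivFun_apply]
      rw [h1]
      funext j
      rw [Basis.equivFun_apply])) A N (fun j => (hAN j).1) (fun j => (hAN j).2)
    (by rw [Fintype.card_fin, hcard]; exact hW)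
  rw [Fintype.card_fin, hcard] at key
  refine hits_le Ω (fun y j => B.repr y j) hinj.injOn (P := Q θ κ p) key ?_
  intro v _ j _ hv
  exact hP' _ (ZMod.val_lt _) hv

/-- arrays -/
theorem famT (k : ℕ) (n : Fin k → ℕ) (hn : ∀ j, 1 ≤ n j) (D : Finset (Fin k)) (hD : ∃ j ∈ D, 2 ≤ n j)
    (ε : ℝ) (hε : 0 < ε) (hε1 : ε ≤ 1) :
    ∃ κ : ℝ, 0 < κ ∧ ∃ cc : ℝ, 0 < cc ∧ ∃ p₀ : ℕ, ∀ p : ℕ, p₀ ≤ p → ∀ [Fact p.Prime],
    ∀ (θ : Θ) (P' : ℕ → Prop), (∀ x : ℕ, x < p → Q θ κ p x → P' x) →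
    ∀ Ω : Finset ((∀ j, Fin (n j)) → ZMod p), Closed D Ω →
    ∀ A N : (∀ j, Fin (n j)) → ℕ, (∀ j, A j + N j ≤ p ∧ (p : ℝ) ^ ε ≤ N j) →
      (p : ℝ) ^ (3 * (∏ j, (n j : ℝ)) - ∑ j ∈ D, ((n j : ℝ) - 1) - 1 + ε) ≤ (∏ i, (N i : ℝ)) ^ 2 * Ω.card →
      cc * ((∏ i, (N i : ℝ)) * Ω.card / (p : ℝ) ^ (∏ j, n j)) * lam (∏ j, n j) p ≤ Count Ω (fun v => v) A N P' := by
  classical
  have hcardN : Fintype.card (∀ j, Fin (n j)) = ∏ j, n j := by
    rw [Fintype.card_pi]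
    exact prod_congr rfl fun j _ => by rw [Fintype.card_fin]
  obtain ⟨κ, hκ, cc, hcc, p₁, h⟩ := genC Q (lam (∏ j, n j)) (∀ j, Fin (n j)) (by rw [hcardN]; exact hQ _)
    (ε / 2) (by positivity) (by linarith)
  have e2 := (tendsto_natCast_atTop_atTop (R := ℝ)).eventually
    ((tendsto_rpow_atTop (show (0 : ℝ) < ε / 2 by positivity)).eventually_ge_atTop 2)
  obtain ⟨p₂, hp₂⟩ := e2.exists_forall_of_atTop
  refine ⟨κ, hκ, cc, hcc, max p₁ p₂, ?_⟩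
  intro p hp0 _ θ P' hP' Ω hΩ A N hAN hW
  have hpp : p.Prime := Fact.out
  have hpe := hp₂ p ((le_max_right _ _).trans hp0)
  have hp : (0 : ℝ) < p := by exact_mod_cast hpp.pos
  have hp1 : (1 : ℝ) ≤ p := by exact_mod_cast hpp.one_lt.le
  have hmono : ∀ x y : ℝ, x ≤ y → (p : ℝ) ^ x ≤ (p : ℝ) ^ y := fun x y h =>
    Real.rpow_le_rpow_of_exponent_le hp1 h
  have key := h p ((le_max_left _ _).trans hp0) θ Ω _ (spread_arrays hn hD hΩ) A N (fun j => (hAN j).1)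
    (fun j => (hmono _ _ (by linarith)).trans (hAN j).2) (by
      rw [hcardN]
      push_cast
      set R : ℝ := ∏ j, (n j : ℝ) with hR
      set E : ℝ := ∑ j ∈ D, ((n j : ℝ) - 1) with hE
      have e5 : (p : ℝ) ^ (3 * R + ε / 2) * 2 ≤ (p : ℝ) ^ (3 * R - E - 1 + ε) * (p : ℝ) ^ (E + 1) := by
        calc (p : ℝ) ^ (3 * R + ε / 2) * 2 ≤ (p : ℝ) ^ (3 * R + ε / 2) * (p : ℝ) ^ (ε / 2) :=
              mul_le_mul_of_nonneg_left hpe (by positivity)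
          _ = _ := by
              rw [← Real.rpow_add hp, ← Real.rpow_add hp]
              congr 1
              ring
      have e6 : (p : ℝ) ^ (3 * R - E - 1 + ε) * (p : ℝ) ^ (E + 1) ≤
          ((∏ j, (N j : ℝ)) ^ 2 * Ω.card) * (p : ℝ) ^ (E + 1) :=
        mul_le_mul_of_nonneg_right hW (by positivity)
      linarith)
  rw [hcardN] at key
  refine hits_le Ω (fun v => v) (Set.injOn_id _) (P := Q θ κ p) (by rw [image_id']; exact key) ?_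
  intro v _ j _ hv
  exact hP' _ (ZMod.val_lt _) hv

end Pool.Agent.KS6_51.INVC
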